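import Pool.Agent.helper64.D2.SpecR

/-!
# Module RCH of project dc (MP_5823cb_al): the sequence of random steps
-/

set_option autoImplicit false

open Filter Topology
open scoped commutatorElement

namespace Pool.Agent.helper64.D2

theorem RCH_sz_mono {g : DD} {a b : ℝ} (h : Sz g a) (hab : a ≤ b) : Sz g b :=
  fun x => (h x).trans hab

theorem RCH_sz_one {a : ℝ} (ha : 0 ≤ a) : Sz 1 a := by
  intro x
  have h : ev (1 : DD) = fun x => x := by
    funext y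
    exact ev_one y
  have h1 : deriv (ev (1 : DD)) = fun _ => 1 := by
    rw [h]
    funext y
    simp
  rw [d2, h1]
  simpa using ha

theorem RCH_KK_nonneg (X : ℝ → ℝ) (μ : ℝ) : 0 ≤ KK X μ := by
  unfold KK
  apply intervalIntegral.integral_nonneg (by norm_num)
  intro x _
  linarith [Real.one_le_cosh (μ * d2 X x)]

theorem RCH_KK_le (h2 : ∀ t : ℝ, |t| ≤ 1 → Real.cosh t - 1 ≤ t ^ 2) (X : ℝ → ℝ) (μ ε : ℝ)
    (hμ : 0 ≤ μ) (hX : ∀ x, |d2 X x| ≤ ε) (h1 : μ * ε ≤ 1) : KK X μ ≤ μ ^ 2 * ε ^ 2 := by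
  have hb : ∀ x ∈ Set.uIoc (0 : ℝ) 1, ‖Real.cosh (μ * d2 X x) - 1‖ ≤ μ ^ 2 * ε ^ 2 := by
    intro x _
    have e1 : |μ * d2 X x| ≤ μ * ε := by
      rw [abs_mul, abs_of_nonneg hμ]
      exact mul_le_mul_of_nonneg_left (hX x) hμ
    have e2 := h2 _ (e1.trans h1)
    have e3 : (μ * d2 X x) ^ 2 ≤ (μ * ε) ^ 2 := by
      rw [← sq_abs]
      exact pow_le_pow_left₀ (abs_nonneg _) e1 2
    rw [Real.norm_eq_abs, abs_of_nonneg (by linarith [Real.one_le_cosh (μ * d2 X x)])]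
    calc Real.cosh (μ * d2 X x) - 1 ≤ (μ * d2 X x) ^ 2 := e2
      _ ≤ (μ * ε) ^ 2 := e3
      _ = μ ^ 2 * ε ^ 2 := by ring
  have h3 := intervalIntegral.norm_integral_le_of_norm_le_const hb
  rw [sub_zero, abs_one, mul_one] at h3
  exact (le_abs_self _).trans h3

/-- the invariants of the `j`-th state -/
structure RCH_Inv (b : ℕ) (ε lam0 β τ μ0 E : ℝ) (j : ℕ) (R : DD) (X : ℝ → ℝ) : Prop where
  rep : Rep R X
  st : St X (32 / 100) (58 / 100 + j * β) (ε * (1 + 8 * lam0) ^ j)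
    ((1 + 8 * lam0) ^ j * (2 ^ b + 3 * j))
  dr : ∀ x, |deriv X x| ≤ lam0 * (1 + 8 * lam0) ^ j
  mo : (1 + τ) * (1 + 2 * KK X (2 ^ j * μ0) / β) ≤ Real.exp (2 ^ j * E)

theorem RCH (hRST : RST_stmt) (hRNU : RNU_stmt) (hSZC : SZC_stmt) (hRC2 : RC2_stmt) :
    RCH_stmt := by
  obtain ⟨C, hC, hRST⟩ := hRST
  obtain ⟨B1, hB1, hRNU⟩ := hRNU
  obtain ⟨hrep, _, _, _, _⟩ := hSZC
  refine ⟨max B1 ⌈C⌉₊, C, hC, fun b hb R X ε hε0 hε1 hR hX hdX => ?_⟩
  have hbB1 : B1 ≤ b := (le_max_left _ _).trans hb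
  have hbC : C ≤ b := by
    have h1 : (⌈C⌉₊ : ℝ) ≤ b := by exact_mod_cast (le_max_right _ _).trans hb
    exact (Nat.le_ceil C).trans h1
  obtain ⟨n1, n2, n3, n4, n5, -⟩ := hRNU b hbB1
  have hb2 : (2 : ℝ) ≤ b := by exact_mod_cast hB1.trans hbB1
  have hb0 : (0 : ℝ) < b := by linarith
  obtain ⟨m, hm⟩ : ∃ m, m = mm b := ⟨_, rfl⟩
  obtain ⟨β, hβ⟩ : ∃ β : ℝ, β = 1 / (b : ℝ) ^ 2 := ⟨_, rfl⟩
  obtain ⟨lam0, hlam0⟩ : ∃ l : ℝ, l = 1 / (b : ℝ) ^ 300 := ⟨_, rfl⟩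
  obtain ⟨τ, hτ⟩ : ∃ τ : ℝ, τ = 1 / (b : ℝ) ^ 200 := ⟨_, rfl⟩
  obtain ⟨μ0, hμ0⟩ : ∃ μ0 : ℝ, μ0 = 1 / (8 * (b : ℝ) ^ 42) := ⟨_, rfl⟩
  obtain ⟨E, hE⟩ : ∃ E : ℝ, E = 2 * μ0 ^ 2 * ε ^ 2 * (b : ℝ) ^ 2 + τ := ⟨_, rfl⟩
  have hβ0 : 0 < β := by rw [hβ]; positivity
  have hl0 : 0 < lam0 := by rw [hlam0]; positivity
  have hτ0 : 0 < τ := by rw [hτ]; positivity
  have hμ00 : 0 < μ0 := by rw [hμ0]; positivity
  rw [← hm] at n1 n2 n3 n4
  have n1' : (m : ℝ) * β ≤ 2 / 100 := by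
    rw [hβ, mul_one_div]
    exact n1
  have n2' : (1 + 8 * lam0) ^ m ≤ 2 := by
    have e : 8 * lam0 = 8 / (b : ℝ) ^ 300 := by rw [hlam0, mul_one_div]
    rw [e]
    exact n2
  have hpow : ∀ j, j ≤ m → (1 + 8 * lam0) ^ j ≤ 2 := fun j hj =>
    (pow_le_pow_right₀ (by linarith) hj).trans n2'
  have hpow1 : ∀ j : ℕ, 1 ≤ (1 + 8 * lam0) ^ j := fun j => one_le_pow₀ (by linarith)
  have hl8 : 2 * lam0 ≤ 1 / 8 := by
    have h0 : (2 : ℝ) ^ 4 ≤ (b : ℝ) ^ 4 := pow_le_pow_left₀ (by norm_num) hb2 4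
    have h1 : (b : ℝ) ^ 4 ≤ (b : ℝ) ^ 300 := pow_le_pow_right₀ (by linarith) (by norm_num)
    have h2 : lam0 ≤ 1 / 16 := by
      rw [hlam0]
      apply one_div_le_one_div_of_le (by norm_num)
      linarith
    linarith
  have hCβ : C * β ≤ 1 := by
    rw [hβ, mul_one_div, div_le_one (by positivity)]
    nlinarith
  have hdivβ : ∀ x : ℝ, x / β = x * (b : ℝ) ^ 2 := by
    intro x
    rw [hβ, one_div, div_inv_eq_mul]
  -- one step
  have step : ∀ (j : ℕ) (R : DD) (X : ℝ → ℝ), j < m → RCH_Inv b ε lam0 β τ μ0 E j R X →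
      ∃ (u v : DD) (X' : ℝ → ℝ), RCH_Inv b ε lam0 β τ μ0 E (j + 1) (⁅u, v⁆ * R) X' ∧
        Sz u (C / (b : ℝ) ^ 2) ∧ Sz v (8 * ε) := by
    intro j R X hj hI
    have hj1 : ((j : ℝ) + 1) ≤ m := by exact_mod_cast hj
    have hjβ : ((j : ℝ) + 1) * β ≤ 2 / 100 :=
      (mul_le_mul_of_nonneg_right hj1 hβ0.le).trans n1'
    have hj0 : (0 : ℝ) ≤ j := Nat.cast_nonneg j
    have hjβ0 : 0 ≤ (j : ℝ) * β := by positivity
    have p2 := hpow j hj.le
    have p1 := hpow1 j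
    obtain ⟨a, ha⟩ : ∃ a, a = ε * (1 + 8 * lam0) ^ j := ⟨_, rfl⟩
    obtain ⟨lam, hlam⟩ : ∃ lam, lam = lam0 * (1 + 8 * lam0) ^ j := ⟨_, rfl⟩
    obtain ⟨L, hL⟩ : ∃ L : ℝ, L = (1 + 8 * lam0) ^ j * (2 ^ b + 3 * j) := ⟨_, rfl⟩
    have ha0 : 0 ≤ a := by rw [ha]; positivity
    have ha2 : a ≤ 2 * ε := by
      rw [ha]
      nlinarith
    have hlamle : lam ≤ 2 * lam0 := by
      rw [hlam]
      nlinarith
    have hlampos : 0 ≤ lam := by rw [hlam]; positivity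
    have hL0 : 0 ≤ L := by rw [hL]; positivity
    obtain ⟨h1, h2, h3, h4⟩ := hI.st
    have hdr := hI.dr
    have hmo := hI.mo
    rw [← ha] at h3
    rw [← hL] at h4
    rw [← hlam] at hdr
    have hμj : 2 ^ j * μ0 ≤ 2 ^ 104 * (b : ℝ) ^ 42 := by
      have e1 : (2 : ℝ) ^ j ≤ 2 ^ m := pow_le_pow_right₀ (by norm_num) hj.le
      rw [hμ0, mul_one_div, div_le_iff₀ (by positivity)]
      calc (2 : ℝ) ^ j ≤ 2 ^ 104 * (b : ℝ) ^ 84 := e1.trans n3
        _ ≤ 2 ^ 104 * (b : ℝ) ^ 42 * (8 * (b : ℝ) ^ 42) := by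
            have e2 : 2 ^ 104 * (b : ℝ) ^ 42 * (8 * (b : ℝ) ^ 42) = 8 * (2 ^ 104 * (b : ℝ) ^ 84) := by
              ring
            rw [e2]
            have e3 : (0 : ℝ) ≤ 2 ^ 104 * (b : ℝ) ^ 84 := by positivity
            linarith
    obtain ⟨c1, c2⟩ := n5 (2 ^ j * μ0) lam a β hβ (by positivity) hμj hlampos
      (by
        refine hlamle.trans (le_of_eq ?_)
        rw [hlam0, mul_one_div]) ha0 (by linarith)
    rw [← hτ] at c2
    obtain ⟨T, x2, X', r1, r2, r3, r4, r5, r6⟩ := hRST R X (32 / 100) (58 / 100 + j * β) a L lam β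
      (2 ^ j * μ0) τ hI.rep
      ⟨h1, h2, hdr, h3, by norm_num, by linarith, by linarith, hlampos, by linarith, ha0⟩ h4
      (by linarith) hL0 (by linarith) hβ0 hCβ (by positivity) c1 c2
    have elam : lam * (1 + lam) ≤ lam0 * (1 + 8 * lam0) ^ (j + 1) := by
      rw [pow_succ, ← mul_assoc, ← hlam]
      apply mul_le_mul_of_nonneg_left _ hlampos
      linarith
    refine ⟨T, x2, X', ⟨r1, ⟨r2.1, ?_, ?_, ?_⟩, ?_, ?_⟩, ?_, ?_⟩
    · intro x hx
      apply r2.2.1 x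
      intro hx'
      apply hx
      refine ⟨hx'.1, hx'.2.trans (le_of_eq ?_)⟩
      push_cast
      ring
    · intro x
      refine (r2.2.2.1 x).trans ?_
      rw [pow_succ, ← mul_assoc, ← ha]
      apply mul_le_mul_of_nonneg_left _ ha0
      linarith
    · intro x y
      refine (r2.2.2.2 x y).trans (mul_le_mul_of_nonneg_right ?_ (abs_nonneg _))
      have e1 : L * (1 + 4 * lam) ≤ (1 + 8 * lam0) ^ (j + 1) * (2 ^ b + 3 * j) := by
        have e2 : (1 + 8 * lam0) ^ (j + 1) * (2 ^ b + 3 * (j : ℝ)) = L * (1 + 8 * lam0) := by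
          rw [hL, pow_succ]
          ring
        rw [e2]
        apply mul_le_mul_of_nonneg_left _ hL0
        linarith
      have e3 : 3 * a ^ 2 ≤ (1 + 8 * lam0) ^ (j + 1) * 3 := by
        have e4 := hpow1 (j + 1)
        have e5 : a ^ 2 ≤ 1 := by
          have : a ≤ 1 := by linarith
          exact pow_le_one₀ ha0 this
        linarith
      calc L * (1 + 4 * lam) + 3 * a ^ 2
          ≤ (1 + 8 * lam0) ^ (j + 1) * (2 ^ b + 3 * j) + (1 + 8 * lam0) ^ (j + 1) * 3 :=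
            add_le_add e1 e3
        _ = (1 + 8 * lam0) ^ (j + 1) * (2 ^ b + 3 * ((j + 1 : ℕ) : ℝ)) := by
            push_cast
            ring
    · intro x
      exact (r3 x).trans elam
    · have hK := RCH_KK_nonneg X (2 ^ j * μ0)
      have e1 : 0 ≤ (1 + τ) * (1 + 2 * KK X (2 ^ j * μ0) / β) := by positivity
      have e2 := pow_le_pow_left₀ e1 hmo 2
      rw [← Real.exp_nat_mul] at e2
      have e3 : ((2 : ℕ) : ℝ) * (2 ^ j * E) = 2 ^ (j + 1) * E := by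
        rw [pow_succ]
        push_cast
        ring
      rw [e3] at e2
      have e4 : (2 : ℝ) ^ (j + 1) * μ0 = 2 * (2 ^ j * μ0) := by
        rw [pow_succ]
        ring
      rw [e4]
      calc (1 + τ) * (1 + 2 * KK X' (2 * (2 ^ j * μ0)) / β)
          ≤ (1 + τ) * ((1 + τ) * (1 + 2 * KK X (2 ^ j * μ0) / β) ^ 2) :=
            mul_le_mul_of_nonneg_left r6 (by linarith)
        _ = ((1 + τ) * (1 + 2 * KK X (2 ^ j * μ0) / β)) ^ 2 := by ring
        _ ≤ Real.exp (2 ^ (j + 1) * E) := e2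
    · have : C / (b : ℝ) ^ 2 = C * β := by rw [hβ, mul_one_div]
      rw [this]
      exact r4
    · exact RCH_sz_mono r5 (by linarith)
  -- the choice
  have step' : ∀ (j : ℕ) (R : DD) (X : ℝ → ℝ), ∃ (u v : DD) (X' : ℝ → ℝ),
      (j < m → RCH_Inv b ε lam0 β τ μ0 E j R X →
        RCH_Inv b ε lam0 β τ μ0 E (j + 1) (⁅u, v⁆ * R) X') ∧
      Sz u (C / (b : ℝ) ^ 2) ∧ Sz v (8 * ε) ∧ (m ≤ j → u = 1 ∧ v = 1) := by
    intro j R X
    by_cases h : j < m ∧ RCH_Inv b ε lam0 β τ μ0 E j R X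
    · obtain ⟨u, v, X', h1, h2, h3⟩ := step j R X h.1 h.2
      exact ⟨u, v, X', fun _ _ => h1, h2, h3, fun h4 => absurd h.1 (by omega)⟩
    · refine ⟨1, 1, X, fun h1 h2 => absurd ⟨h1, h2⟩ h, RCH_sz_one (by positivity),
        RCH_sz_one (by linarith), fun _ => ⟨rfl, rfl⟩⟩
  choose fu fv fX hf1 hf2 hf3 hf4 using step'
  let S : ℕ → DD × (ℝ → ℝ) := fun n => Nat.rec (R, X)
    (fun j s => (⁅fu j s.1 s.2, fv j s.1 s.2⁆ * s.1, fX j s.1 s.2)) n
  have hS0 : S 0 = (R, X) := rfl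
  have hSs : ∀ j, S (j + 1) = (⁅fu j (S j).1 (S j).2, fv j (S j).1 (S j).2⁆ * (S j).1,
    fX j (S j).1 (S j).2) := fun j => rfl
  have hInv : ∀ j, j ≤ m → RCH_Inv b ε lam0 β τ μ0 E j (S j).1 (S j).2 := by
    intro j
    induction j with
    | zero =>
      intro _
      rw [hS0]
      refine ⟨hR, ⟨hX.1, ?_, ?_, ?_⟩, ?_, ?_⟩
      · intro x hx
        apply hX.2.1 x
        intro hx'
        apply hx
        refine ⟨hx'.1, hx'.2.trans (le_of_eq ?_)⟩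
        simp
      · intro x
        rw [pow_zero, mul_one]
        exact hX.2.2.1 x
      · intro x y
        rw [pow_zero, one_mul, Nat.cast_zero, mul_zero, add_zero]
        exact hX.2.2.2 x y
      · intro x
        rw [pow_zero, mul_one, hlam0]
        exact hdX x
      · rw [pow_zero, one_mul, one_mul, hE]
        have hμε : μ0 * ε ≤ 1 := by
          have e1 : μ0 ≤ 1 := by
            rw [hμ0, div_le_one (by positivity)]
            have : (1 : ℝ) ≤ (b : ℝ) ^ 42 := one_le_pow₀ (by linarith)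
            linarith
          nlinarith
        have e1 := RCH_KK_le hRC2.2.1 X μ0 ε hμ00.le hX.2.2.1 hμε
        have e2 : 2 * KK X μ0 / β ≤ 2 * μ0 ^ 2 * ε ^ 2 * (b : ℝ) ^ 2 := by
          rw [hdivβ]
          have e3 : (0 : ℝ) ≤ (b : ℝ) ^ 2 := by positivity
          calc 2 * KK X μ0 * (b : ℝ) ^ 2 ≤ 2 * (μ0 ^ 2 * ε ^ 2) * (b : ℝ) ^ 2 := by
                apply mul_le_mul_of_nonneg_right _ e3
                linarith
            _ = _ := by ring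
        have e3 := Real.add_one_le_exp τ
        have e4 := Real.add_one_le_exp (2 * μ0 ^ 2 * ε ^ 2 * (b : ℝ) ^ 2)
        have e5 := RCH_KK_nonneg X μ0
        have e6 : 0 ≤ 1 + 2 * KK X μ0 / β := by positivity
        calc (1 + τ) * (1 + 2 * KK X μ0 / β)
            ≤ Real.exp τ * Real.exp (2 * μ0 ^ 2 * ε ^ 2 * (b : ℝ) ^ 2) :=
              mul_le_mul (by linarith only [e3]) (by linarith only [e2, e4]) e6 (Real.exp_pos _).le
          _ = Real.exp (2 * μ0 ^ 2 * ε ^ 2 * (b : ℝ) ^ 2 + τ) := by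
              rw [← Real.exp_add, add_comm]
    | succ j ih =>
      intro hj
      rw [hSs]
      exact hf1 j (S j).1 (S j).2 (by omega) (ih (by omega))
  have hSz : ∀ j, j ≤ m → Sz (S j).1 (2 * ε) := by
    intro j hj x
    have hI := hInv j hj
    rw [(hrep _ _ hI.rep).2.2.2 x]
    refine (hI.st.2.2.1 x).trans ?_
    have := hpow j hj
    nlinarith
  refine ⟨fun j => (S j).1, fun j => fu j (S j).1 (S j).2, fun j => fv j (S j).1 (S j).2,
    (S m).2, rfl, fun j => rfl, fun j => ⟨?_, hf2 _ _ _, hf3 _ _ _⟩, fun j hj => hf4 _ _ _ ?_,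
    ?_, ?_, ?_⟩
  · rcases le_or_gt j m with h | h
    · exact hSz j h
    · induction j with
      | zero => omega
      | succ j ih =>
        show Sz (S (j + 1)).1 (2 * ε)
        rw [hSs]
        obtain ⟨h1, h2⟩ := hf4 j (S j).1 (S j).2 (by omega)
        show Sz (⁅fu j (S j).1 (S j).2, fv j (S j).1 (S j).2⁆ * (S j).1) (2 * ε)
        rw [h1, h2, commutatorElement_one_left, one_mul]
        rcases le_or_gt j m with h' | h'
        · exact hSz j h'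
        · exact ih h'
  · rw [hm]
    exact hj
  · rw [← hm]
    exact (hInv m le_rfl).rep
  · obtain ⟨h1, h2, h3, h4⟩ := (hInv m le_rfl).st
    refine ⟨h1, fun x hx => h2 x fun hx' => hx ⟨by linarith [hx'.1], by linarith [hx'.2]⟩,
      fun x => (h3 x).trans ?_, fun x y => (h4 x y).trans ?_⟩
    · have := hpow m le_rfl
      nlinarith
    · apply mul_le_mul_of_nonneg_right _ (abs_nonneg _)
      have e1 := hpow m le_rfl
      have e2 : (0 : ℝ) ≤ 2 ^ b + 3 * m := by positivity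
      exact (mul_le_mul_of_nonneg_right e1 e2).trans n4
  · rw [← hm, ← hμ0, ← hτ, ← hE]
    have h1 := (hInv m le_rfl).mo
    rw [hdivβ] at h1
    have h2 := RCH_KK_nonneg (S m).2 (2 ^ m * μ0)
    have h3 : 0 ≤ 1 + 2 * KK (S m).2 (2 ^ m * μ0) * (b : ℝ) ^ 2 := by positivity
    have h4 : 1 + 2 * KK (S m).2 (2 ^ m * μ0) * (b : ℝ) ^ 2 ≤
        (1 + τ) * (1 + 2 * KK (S m).2 (2 ^ m * μ0) * (b : ℝ) ^ 2) := by
      nlinarith
    exact h4.trans h1

end Pool.Agent.helper64.D2
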