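import Pool.Agent.helper64.D2.SpecD

/-!
# Module THA of project dc (MP_5823cb_al): the first chain
-/

set_option autoImplicit false

open Filter Topology
open scoped commutatorElement

namespace Pool.Agent.helper64.D2

theorem THA_sz_mono {g : DD} {a b : ℝ} (h : Sz g a) (hab : a ≤ b) : Sz g b :=
  fun x => (h x).trans hab

theorem THA_sz_one : Sz 1 0 := by
  intro x
  have h : ev (1 : DD) = fun x => x := by
    funext y
    exact ev_one y
  have h1 : deriv (ev (1 : DD)) = fun _ => 1 := by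
    rw [h]
    funext y
    simp
  rw [d2, h1]
  simp

/-- every slot from the first one on is in exactly one block -/
theorem THA_block {k : ℕ → ℕ} (hk : StrictMono k) (n : ℕ) (hn : k 0 ≤ n) :
    ∃ i, k i ≤ n ∧ n < k (i + 1) := by
  by_contra hcon
  push Not at hcon
  have h : ∀ i, k i ≤ n := by
    intro i
    induction i with
    | zero => exact hn
    | succ i ih => exact hcon i ih
  have h1 := hk.id_le (n + 1)
  have h2 := h (n + 1)
  simp only [id] at h1
  omega

theorem THA_tendsto {k : ℕ → ℕ} (hk : StrictMono k) (a s : ℕ → ℝ)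
    (hs : Tendsto s atTop (𝓝 0))
    (h : ∀ i n, k i ≤ n → n < k (i + 1) → (n : ℝ) ^ 3 * a n ^ 2 ≤ s i) :
    Tendsto (fun n : ℕ => (n : ℝ) ^ 3 * a n ^ 2) atTop (𝓝 0) := by
  rw [Metric.tendsto_atTop] at hs ⊢
  intro e he
  obtain ⟨i0, hi0⟩ := hs e he
  refine ⟨k i0, fun n hn => ?_⟩
  obtain ⟨i, hi1, hi2⟩ := THA_block hk n ((hk.monotone (Nat.zero_le i0)).trans hn)
  have h1 : i0 ≤ i := by
    by_contra hcon
    have h2 : k (i + 1) ≤ k i0 := hk.monotone (by omega)
    omega
  have h3 := hi0 i h1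
  rw [Real.dist_eq, sub_zero] at h3 ⊢
  have h4 := h i n hi1 hi2
  have h5 : 0 ≤ (n : ℝ) ^ 3 * a n ^ 2 := by positivity
  rw [abs_of_nonneg h5]
  exact h4.trans_lt ((le_abs_self _).trans_lt h3)

theorem THA (hBLK : BLK_stmt) (hRP : RP_stmt) (hBSQ : BSQ_stmt) (hSLQ : SLQ_stmt)
    (hGLU : GLU_stmt) (hPLC : PLC_stmt) (hSZC : SZC_stmt) : THA_stmt := by
  obtain ⟨_, _, hprod, hinv, hbdd⟩ := hSZC
  obtain ⟨B1, C, hC, hRP⟩ := hRP
  obtain ⟨B2, hB2⟩ : ∃ B2 : ℕ, ∀ c : ℕ, B2 ≤ c → (c : ℝ) ^ 900 ≤ 2 ^ c := by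
    have h := tendsto_pow_const_div_const_pow_of_one_lt 900 (show (1 : ℝ) < 2 by norm_num)
    have h1 := (h.eventually (gt_mem_nhds (show (0 : ℝ) < 1 by norm_num)))
    rw [eventually_atTop] at h1
    obtain ⟨B2, hB2⟩ := h1
    refine ⟨B2, fun c hc => ?_⟩
    have h2 := hB2 c hc
    have h3 : (0 : ℝ) < 2 ^ c := by positivity
    rw [div_lt_one h3] at h2
    exact h2.le
  refine ⟨max B1 (max B2 100), fun B hB f X w hf hX hsupp hX2 hw hlim => ?_⟩
  have hBB1 : B1 ≤ B := (le_max_left _ _).trans hB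
  have hBB2 : B2 ≤ B := ((le_max_left _ _).trans (le_max_right _ _)).trans hB
  have hB100 : 100 ≤ B := ((le_max_right _ _).trans (le_max_right _ _)).trans hB
  obtain ⟨hbs1, hbs2, _, _, hbs3, _, _, _⟩ := hBSQ B (by omega)
  obtain ⟨hks, ⟨CB, hCB⟩, _⟩ := hSLQ B hB100
  -- the modified modulus
  obtain ⟨w', hw'⟩ : ∃ w' : ℕ → ℝ, w' = fun i => min (w i) (1 / 5000) := ⟨_, rfl⟩
  have hw0 : ∀ i, 0 ≤ w i := by
    intro i
    have h1 := hw i 0 0 (by rw [sub_self, abs_zero]; positivity)
    rwa [sub_self, abs_zero] at h1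
  have hw'0 : ∀ i, 0 ≤ w' i := by
    intro i
    rw [hw']
    exact le_min (hw0 i) (by norm_num)
  have hw'1 : ∀ i, w' i ≤ 1 / 5000 := by
    intro i
    rw [hw']
    exact min_le_right _ _
  have hw'2 : ∀ i, w' i ≤ w i := by
    intro i
    rw [hw']
    exact min_le_left _ _
  have hw'3 : ∀ i x y, |x - y| ≤ 1 / 2 ^ (bs B (2 ^ i)) → |d2 X x - d2 X y| ≤ w' i := by
    intro i x y hxy
    rw [hw']
    refine le_min (hw i x y hxy) ?_
    calc |d2 X x - d2 X y| ≤ |d2 X x| + |d2 X y| := abs_sub _ _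
      _ ≤ 1 / 10000 + 1 / 10000 := add_le_add (hX2 x) (hX2 y)
      _ = 1 / 5000 := by norm_num
  have hlim' : Tendsto (fun i : ℕ => (8 : ℝ) ^ i * w' i ^ 2) atTop (𝓝 0) := by
    refine squeeze_zero (fun i => by positivity) (fun i => ?_) hlim
    exact mul_le_mul_of_nonneg_left (pow_le_pow_left₀ (hw'0 i) (hw'2 i) 2) (by positivity)
  -- the scales
  obtain ⟨c, hc⟩ : ∃ c : ℕ → ℕ, c = fun i => bs B (2 ^ i) := ⟨_, rfl⟩
  have hci : ∀ i, c i = bs B (2 ^ i) := fun i => by rw [hc]
  have hcmono : StrictMono c := by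
    rw [hc]
    exact hbs1.comp (pow_right_strictMono₀ (by norm_num))
  have hcB : ∀ i, B ≤ c i := by
    intro i
    rw [hci]
    exact (Nat.le_add_left B (2 ^ i)).trans (hbs2 (2 ^ i))
  have hc2 : ∀ i, 2 ^ i ≤ c i := by
    intro i
    rw [hci]
    exact (Nat.le_add_right (2 ^ i) B).trans (hbs2 (2 ^ i))
  have hc3 : ∀ i, c (i + 1) ≤ c i ^ 3 := by
    intro i
    rw [hci, hci, pow_succ' 2 i]
    exact hbs3 (2 ^ i)
  obtain ⟨M, XM, XG, hM⟩ := hBLK f X c w' hf hX hsupp hX2 hcmono (by have := hcB 0; omega)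
    (fun i x y hxy => hw'3 i x y (by rw [← hci]; exact hxy))
  have hRPi : ∀ i, ∃ (R' u v : ℕ → DD) (X' : ℝ → ℝ), R' 0 = M i * (M (i + 1))⁻¹ ∧
      (∀ j, R' (j + 1) = ⁅u j, v j⁆ * R' j) ∧
      (∀ j, Sz (R' j) (2 * (4 * w' i)) ∧ Sz (u j) (C / (c (i + 1) : ℝ) ^ 2) ∧
        Sz (v j) (8 * (4 * w' i))) ∧ (∀ j ≥ mm (c (i + 1)), u j = 1 ∧ v j = 1) ∧
      Rep (R' (mm (c (i + 1)))) X' ∧
      St X' (3 / 10) (6 / 10) (1 / (c (i + 1) : ℝ) ^ 40) (2 ^ (c (i + 1) + 2)) := by
    intro i
    obtain ⟨_, _, h3, h4, h5, _⟩ := hM i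
    refine hRP (c (i + 1)) (hBB1.trans (hcB _)) _ (XG i) (4 * w' i) (by linarith [hw'0 i])
      (by linarith [hw'1 i]) h3 ⟨h4.1, fun x hx => h4.2.1 x (fun hx' => hx ?_), h4.2.2⟩ (fun x => ?_)
    · exact ⟨by linarith [hx'.1], by linarith [hx'.2]⟩
    · refine (h5 x).trans ?_
      have hpos : 0 < c (i + 1) := by have := hcB (i + 1); omega
      apply one_div_le_one_div_of_le (by positivity)
      calc ((c (i + 1) : ℕ) : ℝ) ^ 300 ≤ ((c i : ℝ) ^ 3) ^ 300 := by
            apply pow_le_pow_left₀ (by positivity)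
            exact_mod_cast hc3 i
        _ = (c i : ℝ) ^ 900 := by rw [← pow_mul]
        _ ≤ 2 ^ (c i) := hB2 _ (hBB2.trans (hcB i))
  choose R u v XF hR0 hRs hsz huv hrep hst using hRPi
  -- the elements P
  obtain ⟨P, hP⟩ : ∃ P : ℕ → DD, P = fun i => f * (M i)⁻¹ := ⟨_, rfl⟩
  have hPs : ∀ i, P (i + 1) = P i * R i 0 := by
    intro i
    rw [hR0, hP]
    group
  have hPsz : ∀ i, Sz (P i) (2 * w' i) := by
    intro i
    rw [hP]
    exact (hM i).2.2.2.2.2
  have hmm : ∀ b, 0 < mm b := by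
    intro b
    unfold mm
    omega
  have hksucc : ∀ i, ks B (i + 1) = ks B i + mm (c (i + 1)) + 1 := by
    intro i
    rw [hci]
    rfl
  have hks0 : ks B 0 = 4 := rfl
  -- the sequences
  obtain ⟨V', hV'1, hV'2⟩ := hGLU DD (ks B)
    (fun i n => if n - ks B i < mm (c (i + 1)) then P (i + 1) * (R i (n - ks B i + 1))⁻¹
      else P (i + 1)) 1 hks
  obtain ⟨U, hU1, hU2⟩ := hGLU DD (ks B) (fun i n => v i (n - ks B i)) 1 hks
  obtain ⟨W, hW1, hW2⟩ := hGLU DD (ks B) (fun i n => u i (n - ks B i)) 1 hks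
  obtain ⟨V, hV⟩ : ∃ V : ℕ → DD, V = fun k => if k = 2 then f else if k = 3 then P 0 else V' k :=
    ⟨_, rfl⟩
  have hVa : V 0 = 1 := by
    rw [hV]
    exact hV'1 0 (by rw [hks0]; norm_num)
  have hVb : V 1 = 1 := by
    rw [hV]
    exact hV'1 1 (by rw [hks0]; norm_num)
  have hVc : V 2 = f := by rw [hV]; rfl
  have hVd : V 3 = P 0 := by rw [hV]; rfl
  have hks4 : ∀ i, 4 ≤ ks B i := fun i => hks.monotone (Nat.zero_le i)
  have hVe : ∀ i j, j < mm (c (i + 1)) → V (ks B i + j) = P (i + 1) * (R i (j + 1))⁻¹ := by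
    intro i j hj
    have h4 := hks4 i
    have h1 := hV'2 i (ks B i + j) (by omega) (by rw [hksucc]; omega)
    have h2 : V (ks B i + j) = V' (ks B i + j) := by
      rw [hV]
      show (if ks B i + j = 2 then f else if ks B i + j = 3 then P 0 else V' (ks B i + j)) = _
      rw [if_neg (by omega), if_neg (by omega)]
    rw [h2, h1]
    show (if ks B i + j - ks B i < mm (c (i + 1)) then
      P (i + 1) * (R i (ks B i + j - ks B i + 1))⁻¹ else P (i + 1)) = _
    rw [Nat.add_sub_cancel_left, if_pos hj]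
  have hVf : ∀ i, V (ks B i + mm (c (i + 1))) = P (i + 1) := by
    intro i
    have h4 := hks4 i
    have h1 := hV'2 i (ks B i + mm (c (i + 1))) (by omega) (by rw [hksucc]; omega)
    have h2 : V (ks B i + mm (c (i + 1))) = V' (ks B i + mm (c (i + 1))) := by
      rw [hV]
      show (if ks B i + mm (c (i + 1)) = 2 then f else if ks B i + mm (c (i + 1)) = 3 then P 0
        else V' (ks B i + mm (c (i + 1)))) = _
      rw [if_neg (by omega), if_neg (by omega)]
    rw [h2, h1]
    show (if ks B i + mm (c (i + 1)) - ks B i < mm (c (i + 1)) then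
      P (i + 1) * (R i (ks B i + mm (c (i + 1)) - ks B i + 1))⁻¹ else P (i + 1)) = _
    rw [Nat.add_sub_cancel_left, if_neg (lt_irrefl _)]
  have hUj : ∀ i j, j ≤ mm (c (i + 1)) → U (ks B i + j) = v i j := by
    intro i j hj
    have h1 := hU2 i (ks B i + j) (by omega) (by rw [hksucc]; omega)
    rw [h1]
    show v i (ks B i + j - ks B i) = _
    rw [Nat.add_sub_cancel_left]
  have hWj : ∀ i j, j ≤ mm (c (i + 1)) → W (ks B i + j) = u i j := by
    intro i j hj
    have h1 := hW2 i (ks B i + j) (by omega) (by rw [hksucc]; omega)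
    rw [h1]
    show u i (ks B i + j - ks B i) = _
    rw [Nat.add_sub_cancel_left]
  have hblk : ∀ n, 4 ≤ n → ∃ i j, j ≤ mm (c (i + 1)) ∧ n = ks B i + j := by
    intro n hn
    obtain ⟨i, hi1, hi2⟩ := THA_block hks n (by rw [hks0]; exact hn)
    rw [hksucc] at hi2
    exact ⟨i, n - ks B i, by omega, by omega⟩
  have hkk : StrictMono (fun i => ks B (i + 1) - 1) := by
    intro a b hab
    have h1 : ks B (a + 1) < ks B (b + 1) := hks (by omega)
    have h2 := hks4 (a + 1)
    show ks B (a + 1) - 1 < ks B (b + 1) - 1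
    omega
  obtain ⟨hpl1, hpl2⟩ := hPLC (fun i => ks B (i + 1) - 1) (fun i => R i (mm (c (i + 1)))) hkk
  have hks5 : ∀ i, 5 ≤ ks B (i + 1) := by
    intro i
    rw [hksucc]
    have := hks4 i
    omega
  -- cubes of the slots
  have hCB0 : 0 ≤ CB := by
    have h1 := hCB 0
    rw [hks0] at h1
    norm_num at h1
    linarith
  have hcube : ∀ i n, n < ks B (i + 1) → (n : ℝ) ^ 3 ≤ CB ^ 3 * 8 * 8 ^ i := by
    intro i n hn
    have h1 : (n : ℝ) ≤ CB * 2 ^ (i + 1) := by
      refine le_trans ?_ (hCB (i + 1))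
      exact_mod_cast hn.le
    calc (n : ℝ) ^ 3 ≤ (CB * 2 ^ (i + 1)) ^ 3 := pow_le_pow_left₀ (by positivity) h1 3
      _ = CB ^ 3 * 8 * 8 ^ i := by
        rw [mul_pow, ← pow_mul, mul_comm (i + 1) 3, pow_mul]
        norm_num
        ring
  refine ⟨V, U, W, fun i => R i (mm (c (i + 1))), M 0, XM 0, XF, ?_, ?_, ?_, (hM 0).1, ?_, ?_, ?_⟩
  · -- Adm V
    refine ⟨?_, ?_⟩
    · intro k hk
      rcases (by omega : k = 0 ∨ k = 1) with rfl | rfl
      · exact hVa
      · exact hVb
    · obtain ⟨af, haf⟩ := hbdd f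
      obtain ⟨a', ha'1, ha'2⟩ := hGLU ℝ (ks B) (fun i _ => 100 * (w' i + w' (i + 1))) 0 hks
      refine ⟨fun k => if k = 2 then af else if k = 3 then 2 * w' 0 else a' k, ?_, ?_⟩
      · have hs : Tendsto (fun i : ℕ => (CB ^ 3 * 8 * 20000) * ((8 : ℝ) ^ i * w' i ^ 2
            + 8 ^ (i + 1) * w' (i + 1) ^ 2)) atTop (𝓝 0) := by
          have h1 := (hlim'.add (hlim'.comp (tendsto_add_atTop_nat 1))).const_mul
            (CB ^ 3 * 8 * 20000)
          rw [add_zero, mul_zero] at h1
          exact h1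
        refine THA_tendsto hks _ _ hs (fun i n hn1 hn2 => ?_)
        have h4 := hks4 i
        rw [if_neg (by omega), if_neg (by omega), ha'2 i n hn1 hn2]
        calc (n : ℝ) ^ 3 * (100 * (w' i + w' (i + 1))) ^ 2
            ≤ (CB ^ 3 * 8 * 8 ^ i) * (100 * (w' i + w' (i + 1))) ^ 2 :=
              mul_le_mul_of_nonneg_right (hcube i n hn2) (by positivity)
          _ ≤ (CB ^ 3 * 8 * 8 ^ i) * (20000 * (w' i ^ 2 + w' (i + 1) ^ 2)) := by
              apply mul_le_mul_of_nonneg_left _ (by positivity)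
              nlinarith [sq_nonneg (w' i - w' (i + 1))]
          _ ≤ (CB ^ 3 * 8 * 20000) * ((8 : ℝ) ^ i * w' i ^ 2 + 8 ^ (i + 1) * w' (i + 1) ^ 2) := by
              have h5 : 0 ≤ CB ^ 3 * 8 * 20000 * (7 * (8 : ℝ) ^ i * w' (i + 1) ^ 2) := by
                positivity
              have h6 : (CB ^ 3 * 8 * 20000) * ((8 : ℝ) ^ i * w' i ^ 2 + 8 ^ (i + 1) * w' (i + 1) ^ 2)
                = (CB ^ 3 * 8 * 8 ^ i) * (20000 * (w' i ^ 2 + w' (i + 1) ^ 2))
                  + CB ^ 3 * 8 * 20000 * (7 * (8 : ℝ) ^ i * w' (i + 1) ^ 2) := by ring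
              linarith
      · intro k
        show Sz (V k) (if k = 2 then af else if k = 3 then 2 * w' 0 else a' k)
        by_cases h2 : k = 2
        · rw [if_pos h2, h2, hVc]
          exact haf
        by_cases h3 : k = 3
        · rw [if_neg h2, if_pos h3, h3, hVd]
          exact hPsz 0
        rw [if_neg h2, if_neg h3]
        by_cases h4 : k < 4
        · rcases (by omega : k = 0 ∨ k = 1) with rfl | rfl
          · rw [hVa, ha'1 0 (by rw [hks0]; norm_num)]
            exact THA_sz_one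
          · rw [hVb, ha'1 1 (by rw [hks0]; norm_num)]
            exact THA_sz_one
        · obtain ⟨i, j, hj, rfl⟩ := hblk k (by omega)
          rw [ha'2 i (ks B i + j) (by omega) (by rw [hksucc]; omega)]
          have e1 := hw'0 i
          have e2 := hw'0 (i + 1)
          have e3 := hw'1 i
          have e4 := hw'1 (i + 1)
          rcases hj.lt_or_eq with hj | hj
          · rw [hVe i j hj]
            have s1 := hinv _ _ (hsz i (j + 1)).1 (by linarith)
            have s2 := hprod _ _ _ _ (hPsz (i + 1)) s1 (by linarith) (by linarith)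
            refine THA_sz_mono s2 ?_
            nlinarith [mul_nonneg e1 e2, mul_le_mul_of_nonneg_left e3 e2]
          · rw [hj, hVf i]
            exact THA_sz_mono (hPsz (i + 1)) (by linarith)
  · -- Adm U
    refine ⟨fun k hk => hU1 k (by rw [hks0]; omega), ?_⟩
    obtain ⟨a', ha'1, ha'2⟩ := hGLU ℝ (ks B) (fun i _ => 8 * (4 * w' i)) 0 hks
    refine ⟨a', ?_, ?_⟩
    · have hs : Tendsto (fun i : ℕ => (CB ^ 3 * 8 * 1024) * ((8 : ℝ) ^ i * w' i ^ 2))
          atTop (𝓝 0) := by
        have h1 := hlim'.const_mul (CB ^ 3 * 8 * 1024)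
        rw [mul_zero] at h1
        exact h1
      refine THA_tendsto hks _ _ hs (fun i n hn1 hn2 => ?_)
      rw [ha'2 i n hn1 hn2]
      calc (n : ℝ) ^ 3 * (8 * (4 * w' i)) ^ 2 ≤ (CB ^ 3 * 8 * 8 ^ i) * (8 * (4 * w' i)) ^ 2 :=
            mul_le_mul_of_nonneg_right (hcube i n hn2) (by positivity)
        _ = (CB ^ 3 * 8 * 1024) * ((8 : ℝ) ^ i * w' i ^ 2) := by ring
    · intro k
      by_cases h4 : k < 4
      · rw [hU1 k (by rw [hks0]; omega), ha'1 k (by rw [hks0]; omega)]
        exact THA_sz_one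
      · obtain ⟨i, j, hj, rfl⟩ := hblk k (by omega)
        rw [ha'2 i (ks B i + j) (by omega) (by rw [hksucc]; omega), hUj i j hj]
        exact (hsz i j).2.2
  · -- Adm W
    refine ⟨fun k hk => hW1 k (by rw [hks0]; omega), ?_⟩
    obtain ⟨a', ha'1, ha'2⟩ := hGLU ℝ (ks B) (fun i _ => C / (c (i + 1) : ℝ) ^ 2) 0 hks
    refine ⟨a', ?_, ?_⟩
    · have hs : Tendsto (fun i : ℕ => (CB ^ 3 * 8 * C ^ 2) * (1 / 2 : ℝ) ^ i)
          atTop (𝓝 0) := by
        have h1 := (tendsto_pow_atTop_nhds_zero_of_lt_one (by norm_num : (0 : ℝ) ≤ 1 / 2)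
          (by norm_num : (1 / 2 : ℝ) < 1)).const_mul (CB ^ 3 * 8 * C ^ 2)
        rw [mul_zero] at h1
        exact h1
      refine THA_tendsto hks _ _ hs (fun i n hn1 hn2 => ?_)
      rw [ha'2 i n hn1 hn2]
      have hb : (2 : ℝ) ^ i ≤ (c (i + 1) : ℝ) := by
        have h1 : 2 ^ i ≤ c (i + 1) := (Nat.pow_le_pow_right (by norm_num) (Nat.le_succ i)).trans
          (hc2 (i + 1))
        exact_mod_cast h1
      have hb0 : (0 : ℝ) < 2 ^ i := by positivity
      calc (n : ℝ) ^ 3 * (C / (c (i + 1) : ℝ) ^ 2) ^ 2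
          ≤ (CB ^ 3 * 8 * 8 ^ i) * (C / (2 ^ i) ^ 2) ^ 2 := by
            apply mul_le_mul (hcube i n hn2) _ (by positivity) (by positivity)
            apply pow_le_pow_left₀ (by positivity)
            apply div_le_div_of_nonneg_left (by linarith) (by positivity)
            exact pow_le_pow_left₀ hb0.le hb 2
        _ = (CB ^ 3 * 8 * C ^ 2) * (1 / 2 : ℝ) ^ i := by
            have h8 : (8 : ℝ) ^ i = (2 ^ i) ^ 3 := by
              rw [← pow_mul, mul_comm i 3, pow_mul]
              norm_num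
            rw [h8, one_div, inv_pow]
            field_simp
    · intro k
      by_cases h4 : k < 4
      · rw [hW1 k (by rw [hks0]; omega), ha'1 k (by rw [hks0]; omega)]
        exact THA_sz_one
      · obtain ⟨i, j, hj, rfl⟩ := hblk k (by omega)
        rw [ha'2 i (ks B i + j) (by omega) (by rw [hksucc]; omega), hWj i j hj]
        exact (hsz i j).2.1
  · -- St X0
    have h1 := (hM 0).2.1
    rw [hci, pow_zero] at h1
    exact h1
  · -- F
    intro i
    have h1 := hst i
    have h2 : c (i + 1) = bs B (2 ^ (i + 1)) := hci _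
    have h3 := hcB (i + 1)
    rw [← h2]
    refine ⟨hrep i, h1.1, h1.2.1, h1.2.2.1, fun x y => (h1.2.2.2 x y).trans ?_⟩
    apply mul_le_mul_of_nonneg_right _ (abs_nonneg _)
    exact pow_le_pow_right₀ (by norm_num) (by omega)
  · -- the identity
    funext k
    show V k = V (k - 1) * ((Pi.mulSingle 2 f : ℕ → DD) k * (Pi.mulSingle 3 (M 0)⁻¹ : ℕ → DD) k *
      place (fun i => ks B (i + 1) - 1) (fun i => R i (mm (c (i + 1)))) k *
      (U k * W k * (U k)⁻¹ * (W k)⁻¹))
    by_cases h4 : k < 4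
    · have e1 : place (fun i => ks B (i + 1) - 1) (fun i => R i (mm (c (i + 1)))) k = 1 := by
        apply hpl2
        intro i
        have := hks5 i
        show ks B (i + 1) - 1 ≠ k
        omega
      rw [e1, hU1 k (by rw [hks0]; exact h4), hW1 k (by rw [hks0]; exact h4)]
      rcases (by omega : k = 0 ∨ k = 1 ∨ k = 2 ∨ k = 3) with rfl | rfl | rfl | rfl
      · simp [Pi.mulSingle, Function.update, hVa]
      · simp [Pi.mulSingle, Function.update, hVa, hVb]
      · simp [Pi.mulSingle, Function.update, hVb, hVc]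
      · simp [Pi.mulSingle, Function.update, hVc, hVd, hP]
    · obtain ⟨i, j, hj, rfl⟩ := hblk k (by omega)
      have h4' := hks4 i
      have e2 : (Pi.mulSingle 2 f : ℕ → DD) (ks B i + j) = 1 :=
        Pi.mulSingle_eq_of_ne (by omega) _
      have e3 : (Pi.mulSingle 3 (M 0)⁻¹ : ℕ → DD) (ks B i + j) = 1 :=
        Pi.mulSingle_eq_of_ne (by omega) _
      rw [e2, e3, hUj i j hj, hWj i j hj]
      -- value before
      have hprev0 : V (ks B i - 1) = P i := by
        rcases i with _ | i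
        · rw [hks0]
          exact hVd
        · have h5 : ks B (i + 1) - 1 = ks B i + mm (c (i + 1)) := by
            rw [hksucc]
            omega
          rw [h5]
          exact hVf i
      rcases hj.lt_or_eq with hj' | hj'
      · have e1 : place (fun i => ks B (i + 1) - 1) (fun i => R i (mm (c (i + 1)))) (ks B i + j)
            = 1 := by
          apply hpl2
          intro i'
          show ks B (i' + 1) - 1 ≠ ks B i + j
          rcases lt_or_ge i' i with h6 | h6
          · have h7 : ks B (i' + 1) ≤ ks B i := hks.monotone h6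
            omega
          · have h7 : ks B (i + 1) ≤ ks B (i' + 1) := hks.monotone (by omega)
            rw [hksucc i] at h7
            omega
        rw [e1, hVe i j hj', hRs i j]
        have hprev : V (ks B i + j - 1) = P (i + 1) * (R i j)⁻¹ := by
          rcases j with _ | j
          · rw [add_zero, hprev0, hPs i]
            group
          · have h5 : ks B i + (j + 1) - 1 = ks B i + j := by omega
            rw [h5]
            exact hVe i j (by omega)
        rw [hprev, commutatorElement_def]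
        group
      · obtain ⟨hu1, hv1⟩ := huv i j hj'.ge
        rw [hu1, hv1, hj', hVf i]
        have e1 : place (fun i => ks B (i + 1) - 1) (fun i => R i (mm (c (i + 1))))
            (ks B i + mm (c (i + 1))) = R i (mm (c (i + 1))) := by
          have h5 : ks B i + mm (c (i + 1)) = ks B (i + 1) - 1 := by
            rw [hksucc]
            omega
          rw [h5]
          exact hpl1 i
        have hm := hmm (c (i + 1))
        obtain ⟨m, hm'⟩ : ∃ m, mm (c (i + 1)) = m + 1 := ⟨mm (c (i + 1)) - 1, by omega⟩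
        have hprev : V (ks B i + mm (c (i + 1)) - 1) = P (i + 1) * (R i (mm (c (i + 1))))⁻¹ := by
          rw [hm']
          have h5 : ks B i + (m + 1) - 1 = ks B i + m := by omega
          rw [h5]
          exact hVe i m (by omega)
        rw [e1, hprev]
        group

end Pool.Agent.helper64.D2
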